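import Pool.Agent.helper4.GA.Spec

set_option autoImplicit false

/-!
# Row ga:CMB
-/

open Finset
open Pool.Agent.helper32.Cant

namespace Pool.Agent.GA

theorem CMB_ind (s t U : ℝ) :
    ind (s < U) ≤ ind (t < 4 * U) + Real.exp (-(2 * U)) * Real.exp (t - 2 * s) := by
  have hpos : 0 ≤ Real.exp (-(2 * U)) * Real.exp (t - 2 * s) := by positivity
  unfold ind
  by_cases h1 : s < U
  · by_cases h2 : t < 4 * U
    · rw [if_pos h1, if_pos h2]
      linarith
    · rw [if_pos h1, if_neg h2, ← Real.exp_add, zero_add]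
      rw [not_lt] at h2
      have h3 : 0 ≤ -(2 * U) + (t - 2 * s) := by linarith
      exact Real.one_le_exp h3
  · rw [if_neg h1]
    have h4 : (0 : ℝ) ≤ if t < 4 * U then 1 else 0 := by
      split_ifs
      · exact zero_le_one
      · exact le_rfl
    linarith

theorem CMB (hTRE : TRE_stmt) (hCNC : CNC_stmt) : CMB_stmt := by
  intro X n sh ζ η R w h1 h2 h3 h4 hw hR l a r Y U hl hle hrc
  have htre := hTRE X n sh ζ η R w h1 h2 h3 h4 hw hR l a r Y U hl hle hrc
  have hcnc := hCNC X n sh R w hw (a :: l) Y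
  have hsum : ∑ x ∈ Y, w x * ind (ncs n sh R w (a :: l) Y x < U) ≤
      ∑ x ∈ Y, w x * ind (gfs n sh R w (a :: l) Y x < 4 * U) +
        Real.exp (-(2 * U)) * ∑ x ∈ Y, w x *
          Real.exp (gfs n sh R w (a :: l) Y x - 2 * ncs n sh R w (a :: l) Y x) := by
    rw [Finset.mul_sum, ← Finset.sum_add_distrib]
    refine Finset.sum_le_sum fun x _ => ?_
    have h5 := mul_le_mul_of_nonneg_left
      (CMB_ind (ncs n sh R w (a :: l) Y x) (gfs n sh R w (a :: l) Y x) U) (hw x).le
    calc w x * ind (ncs n sh R w (a :: l) Y x < U) ≤ _ := h5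
      _ = _ := by ring
  have h6 := mul_le_mul_of_nonneg_left hcnc (Real.exp_pos (-(2 * U))).le
  linarith

end Pool.Agent.GA
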