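import Pool.Agent.helper4.GA.Spec
import Pool.Agent.helper32.Cant.Basic
import Pool.Agent.helper34.Cant.PATHkey
import Pool.Agent.helper35.Cant.MU
import Pool.Agent.helper30.Cant.LAM1
import Pool.Agent.helper30.Cant.LAM2

set_option autoImplicit false

/-!
# Row ga:PTH: the path of logarithmic densities
-/

open Finset
open Pool.Agent.helper32.Cant

namespace Pool.Agent.GA

/-- a path with steps at most `L` which reaches `4 e` climbs by `e / 2` above the level `2 e` -/
theorem PTH_climb {n A A₂ : ℕ} {f : ℕ → ℝ} {L e : ℝ} (h0 : f 0 = 0) (hL : 0 ≤ L)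
    (hs : ∀ k, k + 1 ≤ n → f (k + 1) ≤ f k + L) (hA1 : 1 ≤ A) (he : 0 < e)
    (hA : ((A : ℝ) + 1) * L ≤ e) (hA₂ : (A₂ : ℝ) * L ≤ e) (h2A : A + A₂ ≤ n) (hn : 4 * e ≤ f n)
    (P : ℕ → Prop) (hP : ∀ k, A ≤ k → k < n → e ≤ f (k - A) → P k) :
    e / 2 ≤ ∑ k ∈ Ico A (n - A₂), |f (k + 1) - f k| * ind (P k) := by
  classical
  have hAL : (A : ℝ) * L ≤ e - L := by linarith
  have hL2 : 2 * L ≤ e := by
    have h1 : (1 : ℝ) ≤ A := by exact_mod_cast hA1
    nlinarith
  have hf1 : 3 * e ≤ f (n - A₂) := by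
    have := path_steps hs (n - A₂) A₂ (by omega)
    rw [Nat.sub_add_cancel (by omega)] at this
    linarith
  set k0 := Nat.findGreatest (fun k => f k ≤ 2 * e) (n - A₂) with hk0
  have hk0le : k0 ≤ n - A₂ := Nat.findGreatest_le _
  have hfk0 : f k0 ≤ 2 * e := by
    have h00 : f 0 ≤ 2 * e := by rw [h0]; linarith
    exact Nat.findGreatest_spec (P := fun k => f k ≤ 2 * e) (n := n - A₂) (m := 0)
      (Nat.zero_le _) h00
  have hAk0 : A ≤ k0 := by
    apply Nat.le_findGreatest (by omega)
    have := path_steps hs 0 A (by omega)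
    rw [zero_add, h0] at this
    linarith
  have hk0lt : k0 < n - A₂ := by
    rcases lt_or_eq_of_le hk0le with h | h
    · exact h
    · exfalso
      rw [h] at hfk0
      linarith
  have hbig : ∀ k, k0 < k → k ≤ n - A₂ → 2 * e < f k := by
    intro k hk hk'
    by_contra hcon
    exact Nat.findGreatest_is_greatest hk hk' (not_lt.1 hcon)
  have hPk : ∀ k ∈ Ico (k0 + 1) (n - A₂), P k := by
    intro k hk
    rw [mem_Ico] at hk
    apply hP k (by omega) (by omega)
    have h1 := hbig k (by omega) (by omega)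
    have h2 := path_steps hs (k - A) A (by omega)
    rw [Nat.sub_add_cancel (by omega)] at h2
    linarith
  have htel : ∑ k ∈ Ico (k0 + 1) (n - A₂), (f (k + 1) - f k) = f (n - A₂) - f (k0 + 1) :=
    Finset.sum_Ico_sub f (by omega)
  have hstep := hs k0 (by omega)
  calc e / 2 ≤ f (n - A₂) - f (k0 + 1) := by linarith
    _ = ∑ k ∈ Ico (k0 + 1) (n - A₂), (f (k + 1) - f k) := htel.symm
    _ ≤ ∑ k ∈ Ico (k0 + 1) (n - A₂), |f (k + 1) - f k| * ind (P k) := by
        apply Finset.sum_le_sum
        intro k hk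
        rw [ind_of (hPk k hk), mul_one]
        exact le_abs_self _
    _ ≤ ∑ k ∈ Ico A (n - A₂), |f (k + 1) - f k| * ind (P k) := by
        apply Finset.sum_le_sum_of_subset_of_nonneg
        · apply Finset.Ico_subset_Ico (by omega) le_rfl
        · intro k _ _
          exact mul_nonneg (abs_nonneg _) (ind_nonneg _)

/-- if all pairs are in the configuration every word is typical -/
theorem PTH_typ {n : ℕ} (c : Cfg n) (hn : 1 ≤ n) (hG : c.G = univ) (z : Sp n) : typ c z := by
  classical
  unfold typ pm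
  have hmu : ∀ y : Sp n, mu c y = 1 / ((3 ^ n * 2 ^ n : ℝ) * 3 ^ (2 * n)) := by
    intro y
    unfold mu
    have h1 : (c.G.card : ℝ) = 3 ^ n * 2 ^ n := by
      rw [hG, Finset.card_univ, Fintype.card_prod, Fintype.card_fin, Fintype.card_fun,
        Fintype.card_bool, Fintype.card_fin]
      push_cast
      ring
    rw [if_pos (by rw [hG]; exact Finset.mem_univ _), h1]
  have hsum : ∑ y : Sp n, mu c y * ind (y.1.2 = z.1.2) = 1 / 2 ^ n := by
    have h2 : ∑ y : Sp n, mu c y * ind (y.1.2 = z.1.2) =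
        1 / ((3 ^ n * 2 ^ n : ℝ) * 3 ^ (2 * n)) *
          ∑ y : (Fin (3 ^ n) × Word n) × ZMod (3 ^ (2 * n)), ind (y.1.2 = z.1.2) := by
      rw [Finset.mul_sum]
      exact Finset.sum_congr rfl fun y _ => by rw [hmu y]
    have h3 : ∑ y : (Fin (3 ^ n) × Word n) × ZMod (3 ^ (2 * n)), ind (y.1.2 = z.1.2) =
        3 ^ n * 3 ^ (2 * n) := by
      rw [Fintype.sum_prod_type, Fintype.sum_prod_type]
      have h4 : ∀ x : Fin (3 ^ n), ∑ w : Word n, ∑ _v : ZMod (3 ^ (2 * n)), ind (w = z.1.2) =
          3 ^ (2 * n) := by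
        intro x
        rw [Finset.sum_eq_single z.1.2]
        · rw [Finset.sum_const, ind_of rfl, nsmul_eq_mul, mul_one, Finset.card_univ, ZMod.card]
          push_cast
          rfl
        · intro w _ hw
          rw [ind_of_not hw]
          exact Finset.sum_const_zero
        · intro h
          exact absurd (Finset.mem_univ _) h
      rw [Finset.sum_congr rfl fun x _ => h4 x, Finset.sum_const, nsmul_eq_mul, Finset.card_univ,
        Fintype.card_fin]
      push_cast
      rfl
    rw [h2, h3]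
    field_simp
  have hn' : (1 : ℝ) ≤ n := by exact_mod_cast hn
  have h5 : 1 / ((n : ℝ) * 2 ^ n) ≤ 1 / 2 ^ n := by
    apply one_div_le_one_div_of_le (by positivity)
    nlinarith [show (0 : ℝ) < 2 ^ n by positivity]
  rw [hsum]
  exact h5

theorem PTH : PTH_stmt := by
  intro n c A A₂ S hn hG hA1 hAA hA hA₂
  have hprob := isProb_mu c
  have hn0 : (0 : ℝ) < n := by exact_mod_cast hn
  have hlog : 0 < Real.log 3 := Real.log_pos (by norm_num)
  have hS : 0 < S := by
    have : (0 : ℝ) ≤ (A : ℝ) := Nat.cast_nonneg A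
    nlinarith
  have hSn : S / n * n = S := div_mul_cancel₀ S hn0.ne'
  have hpt : ∀ x : Sp n, 0 < mu c x →
      ind (4 * S ≤ lam c n x) ≤ 2 / S * ∑ k ∈ Ico A (n - A₂),
        |lam c (k + 1) x - lam c k x| * ind (Lam c (S / n) A k x) := by
    intro x hx
    have hsum0 : 0 ≤ 2 / S * ∑ k ∈ Ico A (n - A₂),
        |lam c (k + 1) x - lam c k x| * ind (Lam c (S / n) A k x) := by
      apply mul_nonneg (by positivity)
      apply Finset.sum_nonneg
      intro k _
      exact mul_nonneg (abs_nonneg _) (ind_nonneg _)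
    by_cases hl : 4 * S ≤ lam c n x
    · rw [ind_of hl]
      have hcl := PTH_climb (n := n) (A := A) (A₂ := A₂) (f := fun k => lam c k x)
        (L := Real.log 3) (e := S) (lam_zero c hx) hlog.le
        (fun k hk => lam_succ_le c hx (by omega)) hA1 hS hA hA₂ hAA hl
        (fun k => Lam c (S / n) A k x)
        (fun k _ _ h => ⟨by rw [hSn]; exact h, PTH_typ c hn hG x⟩)
      have h1 := mul_le_mul_of_nonneg_left hcl (by positivity : (0 : ℝ) ≤ 2 / S)
      have h2 : 2 / S * (S / 2) = 1 := by field_simp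
      rw [h2] at h1
      exact h1
    · rw [ind_of_not hl]
      exact hsum0
  have hex := ex_mono (μ := mu c) hprob.1 (f := fun x => ind (4 * S ≤ lam c n x))
    (g := fun x => 2 / S * ∑ k ∈ Ico A (n - A₂),
        |lam c (k + 1) x - lam c k x| * ind (Lam c (S / n) A k x)) hpt
  refine hex.trans ?_
  rw [ex_smul, ex_sum]
  refine mul_le_mul_of_nonneg_left ?_ (by positivity)
  apply Finset.sum_le_sum
  intro k hk
  rw [mem_Ico] at hk
  exact lam_step c (S / n) hk.1 (by omega)

end Pool.Agent.GA
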