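import Pool.Agent.helper4.GA.Spec

set_option autoImplicit false

/-!
# Row ga:UFB
-/

open Finset
open Pool.Agent.helper32.Cant

namespace Pool.Agent.GA

/-- at most `2 ℓ` residues have distance less than `ℓ` to `0` -/
theorem UFB_count (M : ℕ) [NeZero M] (ℓ : ℕ) :
    ∑ v : ZMod M, ind (nrm v < (ℓ : ℝ)) ≤ 2 * (ℓ : ℝ) := by
  classical
  have h1 : ∑ v : ZMod M, ind (nrm v < (ℓ : ℝ)) =
      (((univ : Finset (ZMod M)).filter (fun v => nrm v < (ℓ : ℝ))).card : ℝ) := by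
    rw [Finset.card_filter, Nat.cast_sum]
    refine Finset.sum_congr rfl fun v _ => ?_
    unfold ind
    by_cases h : nrm v < (ℓ : ℝ)
    · rw [if_pos h, if_pos h, Nat.cast_one]
    · rw [if_neg h, if_neg h, Nat.cast_zero]
  have h2 : ((univ : Finset (ZMod M)).filter (fun v => nrm v < (ℓ : ℝ))).card ≤
      (Finset.Ioo (-(ℓ : ℤ)) (ℓ : ℤ)).card := by
    refine Finset.card_le_card_of_injOn (fun v => v.valMinAbs) ?_ ?_
    · intro v hv
      have hv' := (Finset.mem_filter.1 (Finset.mem_coe.1 hv)).2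
      unfold nrm at hv'
      have hv2 : |v.valMinAbs| < (ℓ : ℤ) := by exact_mod_cast hv'
      rw [Finset.mem_coe, Finset.mem_Ioo]
      exact abs_lt.1 hv2
    · exact (ZMod.injective_valMinAbs).injOn
  have h3 : (Finset.Ioo (-(ℓ : ℤ)) (ℓ : ℤ)).card ≤ 2 * ℓ := by
    rw [Int.card_Ioo]
    omega
  rw [h1]
  exact_mod_cast h2.trans h3

/-- the total mass -/
theorem UFB_NN (hCHI : CHI_stmt) (n : ℕ) (c : Cfg n) (κ : ℕ) :
    ∑ p, NN c κ p ≤ 3 * (6 ^ n * (3 : ℝ) ^ (2 * n - κ)) := by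
  have hℓ : (1 : ℝ) ≤ (3 : ℝ) ^ (2 * n - κ) := one_le_pow₀ (by norm_num)
  obtain ⟨_, _, hs⟩ := hCHI (3 ^ (2 * n)) ((3 : ℝ) ^ (2 * n - κ)) (by positivity)
  have h1 : ∑ p, NN c κ p = ∑ w : Word n, ∑ x : Fin (3 ^ n),
      ∑ v : ZMod (3 ^ (2 * n)), chi ((3 : ℝ) ^ (2 * n - κ)) v := by
    unfold NN wt
    rw [Fintype.sum_prod_type_right]
    refine Finset.sum_congr rfl fun w _ => ?_
    rw [Finset.sum_comm]
    refine Finset.sum_congr rfl fun x _ => ?_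
    exact Equiv.sum_comp (Equiv.addLeft (((yi c (x, w) : ℤ) : ZMod (3 ^ (2 * n)))))
      (fun v => chi ((3 : ℝ) ^ (2 * n - κ)) v)
  rw [h1, Finset.sum_const, Finset.sum_const, nsmul_eq_mul, nsmul_eq_mul, Finset.card_univ,
    Finset.card_univ, Fintype.card_fin, Fintype.card_fun, Fintype.card_bool, Fintype.card_fin,
    ← mul_assoc]
  have h2 : (((2 ^ n : ℕ) : ℝ) * ((3 ^ n : ℕ) : ℝ)) = 6 ^ n := by
    push_cast
    rw [← mul_pow]
    norm_num
  rw [h2]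
  have h3 : ∑ v : ZMod (3 ^ (2 * n)), chi ((3 : ℝ) ^ (2 * n - κ)) v ≤
      3 * (3 : ℝ) ^ (2 * n - κ) := by linarith
  calc (6 : ℝ) ^ n * ∑ v : ZMod (3 ^ (2 * n)), chi ((3 : ℝ) ^ (2 * n - κ)) v ≤
      6 ^ n * (3 * (3 : ℝ) ^ (2 * n - κ)) := mul_le_mul_of_nonneg_left h3 (by positivity)
    _ = _ := by ring

theorem UFB_NN_pos (hCHI : CHI_stmt) (n : ℕ) (c : Cfg n) (κ : ℕ) (p : St n) : 0 < NN c κ p := by
  obtain ⟨h1, _, _⟩ := hCHI (3 ^ (2 * n)) ((3 : ℝ) ^ (2 * n - κ)) (by positivity)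
  unfold NN wt
  refine Finset.sum_pos (fun x _ => (h1 _).1) ?_
  exact ⟨⟨0, by positivity⟩, Finset.mem_univ _⟩

/-- Cauchy-Schwarz -/
theorem UFB_cs {ι : Type} (s : Finset ι) (f g : ι → ℝ) (F G : ℝ) (hF : ∑ i ∈ s, f i ^ 2 ≤ F)
    (hG : ∑ i ∈ s, g i ^ 2 ≤ G) : ∑ i ∈ s, f i * g i ≤ √F * √G := by
  have h := Finset.sum_mul_sq_le_sq_mul_sq s f g
  have hF0 : 0 ≤ F := le_trans (Finset.sum_nonneg fun i _ => sq_nonneg _) hF
  rw [← Real.sqrt_mul hF0]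
  refine Real.le_sqrt_of_sq_le (h.trans ?_)
  exact mul_le_mul hF hG (Finset.sum_nonneg fun i _ => sq_nonneg _) hF0

theorem UFB (hCHI : CHI_stmt) (hDSM : DSM_stmt) (hWIN : WIN_stmt) : UFB_stmt := by
  intro n c k A g T x₁ S U K hn hG hA hk hg h1 h2 hK hx hx1 hx2
  have hwin := hWIN n c k A S hn hG hA hk
  have hdsm := hDSM n c (k - A) k g T x₁ (S - 1) U K hn (Nat.sub_le k A) hk hg h1 h2 hK hx hx1 hx2
  have hkA : k - (k - A) = A := by omega
  rw [hkA] at hdsm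
  set κ := k - A with hκ
  set Q := kap n A (x₁ / 3 ^ κ) (et n g (S - 1) U K) with hQ
  set ℓ : ℝ := (3 : ℝ) ^ (2 * n - κ) with hℓ
  set L : ℝ := (3 : ℝ) ^ (2 * n - (k + 1)) with hL
  have hℓpos : 0 < ℓ := by positivity
  have hLpos : 0 < L := by positivity
  have hNpos : ∀ p, 0 < NN c κ p := UFB_NN_pos hCHI n c κ
  have hNN := UFB_NN hCHI n c κ
  rw [← hℓ] at hNN
  set Ms := ∑ p, NN c κ p with hS
  have hS0 : 0 ≤ Ms := Finset.sum_nonneg fun p _ => (hNpos p).le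
  -- the inner sum
  have hin : ∀ p, ∑ v, ind (nrm v < ℓ) * |DD c κ k p v| ≤ √(2 * ℓ) * √(∑ v, DD c κ k p v ^ 2) := by
    intro p
    refine UFB_cs univ (fun v => ind (nrm v < ℓ)) (fun v => |DD c κ k p v|) _ _ ?_ ?_
    · have hc := UFB_count (3 ^ (2 * n)) (3 ^ (2 * n - κ))
      push_cast at hc
      rw [← hℓ] at hc
      refine le_trans (le_of_eq (Finset.sum_congr rfl fun v _ => ?_)) hc
      unfold ind
      split_ifs <;> norm_num
    · exact le_of_eq (Finset.sum_congr rfl fun v _ => sq_abs _)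
  -- the outer sum
  have hout : ∑ p, ind (hv c κ (S - 1) p) * √(∑ v, DD c κ k p v ^ 2) ≤
      √Ms * √(L ^ 2 * 3 ^ κ / 3 ^ (2 * n) * Q * Ms) := by
    have h3 : ∀ p, ind (hv c κ (S - 1) p) * √(∑ v, DD c κ k p v ^ 2) =
        √(NN c κ p) * (ind (hv c κ (S - 1) p) * √((∑ v, DD c κ k p v ^ 2) / NN c κ p)) := by
      intro p
      rw [mul_left_comm, ← Real.sqrt_mul (hNpos p).le, mul_div_cancel₀ _ (hNpos p).ne']
    rw [Finset.sum_congr rfl fun p _ => h3 p]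
    refine UFB_cs univ (fun p => √(NN c κ p))
      (fun p => ind (hv c κ (S - 1) p) * √((∑ v, DD c κ k p v ^ 2) / NN c κ p)) _ _ ?_ ?_
    · exact le_of_eq (Finset.sum_congr rfl fun p _ => Real.sq_sqrt (hNpos p).le)
    · refine le_trans (le_of_eq (Finset.sum_congr rfl fun p _ => ?_)) hdsm
      show (ind (hv c κ (S - 1) p) * √((∑ v, DD c κ k p v ^ 2) / NN c κ p)) ^ 2 = _
      rw [mul_pow, Real.sq_sqrt (div_nonneg (Finset.sum_nonneg fun v _ => sq_nonneg _)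
        (hNpos p).le)]
      have : ind (hv c κ (S - 1) p) ^ 2 = ind (hv c κ (S - 1) p) := by
        unfold ind
        split_ifs <;> norm_num
      rw [this]
  have hM : (3 : ℝ) ^ (2 * n) = 3 ^ κ * ℓ := by
    rw [hℓ, ← pow_add]
    congr 1
    omega
  have hM' : (3 : ℝ) ^ (2 * n) = 3 ^ (k + 1) * L := by
    rw [hL, ← pow_add]
    congr 1
    omega
  have hroot : √Ms * √(L ^ 2 * 3 ^ κ / 3 ^ (2 * n) * Q * Ms) = Ms * L * √(Q / ℓ) := by
    have h4 : L ^ 2 * 3 ^ κ / 3 ^ (2 * n) * Q * Ms = (Ms * L ^ 2) * (Q / ℓ) := by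
      rw [hM]
      field_simp
    rw [h4, Real.sqrt_mul (by positivity), Real.sqrt_mul hS0, Real.sqrt_sq hLpos.le]
    have h5 : √Ms * √Ms = Ms := Real.mul_self_sqrt hS0
    calc √Ms * (√Ms * L * √(Q / ℓ)) = (√Ms * √Ms) * L * √(Q / ℓ) := by ring
      _ = _ := by rw [h5]
  have htot : ∑ p, ind (hv c κ (S - 1) p) * ∑ v, ind (nrm v < ℓ) * |DD c κ k p v| ≤
      √(2 * ℓ) * (Ms * L * √(Q / ℓ)) := by
    calc ∑ p, ind (hv c κ (S - 1) p) * ∑ v, ind (nrm v < ℓ) * |DD c κ k p v| ≤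
        ∑ p, ind (hv c κ (S - 1) p) * (√(2 * ℓ) * √(∑ v, DD c κ k p v ^ 2)) := by
          refine Finset.sum_le_sum fun p _ => ?_
          refine mul_le_mul_of_nonneg_left (hin p) ?_
          unfold ind
          split_ifs <;> norm_num
      _ = √(2 * ℓ) * ∑ p, ind (hv c κ (S - 1) p) * √(∑ v, DD c κ k p v ^ 2) := by
          rw [Finset.mul_sum]
          exact Finset.sum_congr rfl fun p _ => by ring
      _ ≤ √(2 * ℓ) * (√Ms * √(L ^ 2 * 3 ^ κ / 3 ^ (2 * n) * Q * Ms)) :=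
          mul_le_mul_of_nonneg_left hout (Real.sqrt_nonneg _)
      _ = _ := by rw [hroot]
  have hsq : √(2 * ℓ) * √(Q / ℓ) = √2 * √Q := by
    rw [← Real.sqrt_mul (by positivity), ← Real.sqrt_mul (by norm_num)]
    congr 1
    field_simp
  have hs2 : √2 ≤ 13 / 9 := by
    rw [Real.sqrt_le_left (by norm_num)]
    norm_num
  have hQ0 : 0 ≤ √Q := Real.sqrt_nonneg _
  refine hwin.trans ?_
  have hmain : 3 / ℓ * 3 ^ (k + 1) / (6 ^ n * 3 ^ (2 * n)) *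
      (∑ p, ind (hv c κ (S - 1) p) * ∑ v, ind (nrm v < ℓ) * |DD c κ k p v|) ≤ 13 * √Q := by
    calc 3 / ℓ * 3 ^ (k + 1) / (6 ^ n * 3 ^ (2 * n)) *
        (∑ p, ind (hv c κ (S - 1) p) * ∑ v, ind (nrm v < ℓ) * |DD c κ k p v|) ≤
        3 / ℓ * 3 ^ (k + 1) / (6 ^ n * 3 ^ (2 * n)) * (√(2 * ℓ) * (Ms * L * √(Q / ℓ))) :=
          mul_le_mul_of_nonneg_left htot (by positivity)
      _ ≤ 3 / ℓ * 3 ^ (k + 1) / (6 ^ n * 3 ^ (2 * n)) *
          (√(2 * ℓ) * ((3 * (6 ^ n * ℓ)) * L * √(Q / ℓ))) := by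
          refine mul_le_mul_of_nonneg_left ?_ (by positivity)
          refine mul_le_mul_of_nonneg_left ?_ (Real.sqrt_nonneg _)
          refine mul_le_mul_of_nonneg_right ?_ (Real.sqrt_nonneg _)
          exact mul_le_mul_of_nonneg_right hNN hLpos.le
      _ = 9 * (√(2 * ℓ) * √(Q / ℓ)) := by
          rw [hM']
          field_simp
          ring
      _ = 9 * (√2 * √Q) := by rw [hsq]
      _ ≤ 9 * (13 / 9 * √Q) := by
          refine mul_le_mul_of_nonneg_left ?_ (by norm_num)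
          exact mul_le_mul_of_nonneg_right hs2 hQ0
      _ = 13 * √Q := by ring
  linarith

end Pool.Agent.GA
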